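import Pool.Agent.Q94.CYD

namespace Pool.Agent.Results.MP_c8d2d2_an.CyclicOptimal

open Finset Matrix

noncomputable section

/-- `c 1, ..., c (3 n)` is an arrangement (each type occurs exactly `n` times), and
`c 0 = c (3 n)`. The types 1, 2, 3 are written as 1, 2, 0 in `Fin 3`. -/
structure IsArrangement (n : ℕ) (c : ℕ → Fin 3) : Prop where
  wrap : c 0 = c (3 * n)
  count : ∀ i : Fin 3, ((range (3 * n)).filter fun k => c (k + 1) = i).card = n

/-- the centres `x_0 = 0`, `x_{k+1} = x_k + (ω_{c k} + ω_{c (k+1)}) / (2 n)` -/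
def centre (n : ℕ) (ω : Fin 3 → ℝ) (c : ℕ → Fin 3) : ℕ → ℝ
  | 0 => 0
  | k + 1 => centre n ω c k + (ω (c k) + ω (c (k + 1))) / (2 * n)

/-- the periodic Green's function -/
def G (x y : ℝ) : ℝ := 1 / 2 * |x - y| ^ 2 - 1 / 2 * |x - y| + 1 / 12

/-- the energy; the ball with index `k + 1` has type `c (k + 1)`, `k = 0, ..., 3 n - 1` -/
def energy (n : ℕ) (ω : Fin 3 → ℝ) (f : Matrix (Fin 3) (Fin 3) ℝ) (c : ℕ → Fin 3) : ℝ :=
  1 / 2 * ∑ k ∈ range (3 * n), ∑ m ∈ range (3 * n),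
    f (c (k + 1)) (c (m + 1)) * G (centre n ω c (k + 1)) (centre n ω c (m + 1))

/-- the cyclic arrangement: `cyclic k` is `k` modulo 3 -/
def cyclic (k : ℕ) : Fin 3 := ⟨k % 3, Nat.mod_lt _ (by norm_num)⟩

lemma centre_eq (n : ℕ) (ω : Fin 3 → ℝ) (c : ℕ → Fin 3) (k : ℕ) :
    centre n ω c k = Q94.CY.center n ω c k := by
  induction k with
  | zero => rfl
  | succ k ih =>
    show centre n ω c k + _ = Q94.CY.center n ω c k + _
    rw [ih]

lemma energy_split (n : ℕ) (ω : Fin 3 → ℝ) (B : Matrix (Fin 3) (Fin 3) ℝ) (c : ℕ → Fin 3) :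
    energy n ω (star B * B) c
      = 1 / 2 * ∑ r : Fin 3, ∑ k ∈ range (3 * n), ∑ m ∈ range (3 * n),
        B r (c (k + 1)) * B r (c (m + 1))
          * Q94.CY.Gr (Q94.CY.center n ω c (k + 1)) (Q94.CY.center n ω c (m + 1)) := by
  unfold energy
  congr 1
  rw [sum_comm (s := (Finset.univ : Finset (Fin 3)))]
  apply sum_congr rfl
  intro k _
  rw [sum_comm (s := (Finset.univ : Finset (Fin 3)))]
  apply sum_congr rfl
  intro m _
  rw [← sum_mul, centre_eq, centre_eq]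
  congr 1

open scoped ComplexOrder MatrixOrder in
lemma exists_factor {f : Matrix (Fin 3) (Fin 3) ℝ} (hf : f.PosSemidef) :
    ∃ B : Matrix (Fin 3) (Fin 3) ℝ, f = star B * B := by
  exact CStarAlgebra.nonneg_iff_eq_star_mul_self.mp hf.nonneg

lemma rows_zero {B : Matrix (Fin 3) (Fin 3) ℝ} (h : (star B * B) *ᵥ (fun _ => 1) = 0) (r : Fin 3) :
    B r 0 + B r 1 + B r 2 = 0 := by
  have h1 : B *ᵥ (fun _ => 1) = 0 := by
    have h2 : (B *ᵥ (fun _ => 1)) ⬝ᵥ (B *ᵥ (fun _ => 1)) = 0 := by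
      have h3 : (fun _ => (1 : ℝ)) ⬝ᵥ ((star B * B) *ᵥ (fun _ => 1)) = 0 := by
        rw [h, dotProduct_zero]
      rw [← Matrix.mulVec_mulVec, dotProduct_mulVec] at h3
      have h4 : (fun _ => (1 : ℝ)) ᵥ* star B = B *ᵥ (fun _ => 1) := by
        ext i
        simp [Matrix.vecMul, Matrix.mulVec, dotProduct, Matrix.star_apply]
      rw [h4] at h3
      exact h3
    exact dotProduct_self_eq_zero.1 h2
  have h5 := congrFun h1 r
  simp only [Matrix.mulVec, dotProduct, Fin.sum_univ_three, mul_one, Pi.zero_apply] at h5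
  exact h5

theorem result (n : ℕ) (hn : 0 < n) (f : Matrix (Fin 3) (Fin 3) ℝ) (hf : f.PosSemidef)
    (hf1 : f *ᵥ (fun _ => 1) = 0) (ω : Fin 3 → ℝ) (hω : ∀ i, 0 < ω i)
    (hω1 : ω 0 + ω 1 + ω 2 = 1) :
    IsArrangement n cyclic ∧
      ∀ c, IsArrangement n c → energy n ω f cyclic ≤ energy n ω f c := by
  refine ⟨⟨Q94.CY.cyc_wrap n, Q94.CY.cyc_count n⟩, fun c hc => ?_⟩
  obtain ⟨B, rfl⟩ := exists_factor hf
  rw [energy_split, energy_split]
  apply mul_le_mul_of_nonneg_left _ (by norm_num)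
  apply sum_le_sum
  intro r _
  have hr := rows_zero hf1 r
  have h1 := Q94.CY.rank_one_cyc n ω (B r) (fun i => (hω i).le) hω1 hr hn
  have h2 := Q94.CY.rank_one_lower n (3 * n) ω (B r) (fun i => (hω i).le) hω1 hr c hc.wrap
    hc.count hn
  rw [← h1] at h2
  exact h2

end

end Pool.Agent.Results.MP_c8d2d2_an.CyclicOptimal
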